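import Pool.Agent.W2helper31.GP.Stm5

set_option autoImplicit false

/-!
# Piece TAN of project GP5 (MP_130bb2_pr)
-/

namespace Pool.Agent.W2helper2.GP5

theorem hasDerivAt_g (u : ℝ) (hu : -1 < u) :
    HasDerivAt (fun u : ℝ => u - u ^ 2 / 2 + u ^ 3 / 3 - Real.log (1 + u))
      (u ^ 3 / (1 + u)) u := by
  have h1 : (1 + u) ≠ 0 := by linarith
  have hl : HasDerivAt (fun u : ℝ => Real.log (1 + u)) (1 / (1 + u)) u := by
    have := (((hasDerivAt_id u).const_add (1 : ℝ))).log h1
    simpa using this
  have h2 : HasDerivAt (fun u : ℝ => u ^ 2 / 2) (u) u := by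
    have := ((hasDerivAt_pow 2 u).div_const 2)
    refine this.congr_deriv ?_
    norm_num
  have h3 : HasDerivAt (fun u : ℝ => u ^ 3 / 3) (u ^ 2) u := by
    have := ((hasDerivAt_pow 3 u).div_const 3)
    refine this.congr_deriv ?_
    norm_num
  have := (((hasDerivAt_id' u).sub h2).add h3).sub hl
  refine this.congr_deriv ?_
  field_simp
  ring

theorem log_cubic (u : ℝ) (hu : -1 < u) : Real.log (1 + u) ≤ u - u ^ 2 / 2 + u ^ 3 / 3 := by
  set g : ℝ → ℝ := fun u : ℝ => u - u ^ 2 / 2 + u ^ 3 / 3 - Real.log (1 + u) with hg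
  have hg0 : g 0 = 0 := by simp [hg]
  have key : 0 ≤ g u := by
    rcases le_total 0 u with h | h
    · have hmono : MonotoneOn g (Set.Ici 0) := by
        apply monotoneOn_of_deriv_nonneg (convex_Ici 0)
        · intro x hx
          have hx' : (0 : ℝ) ≤ x := hx
          exact (hasDerivAt_g x (by linarith)).continuousAt.continuousWithinAt
        · intro x hx
          rw [interior_Ici] at hx
          have hx' : (0 : ℝ) < x := hx
          exact (hasDerivAt_g x (by linarith)).differentiableAt.differentiableWithinAt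
        · intro x hx
          rw [interior_Ici] at hx
          have hx' : (0 : ℝ) < x := hx
          rw [(hasDerivAt_g x (by linarith)).deriv]
          positivity
      have := hmono (Set.mem_Ici.2 le_rfl) (Set.mem_Ici.2 h) h
      rw [hg0] at this
      exact this
    · have hanti : AntitoneOn g (Set.Ioc (-1) 0) := by
        apply antitoneOn_of_deriv_nonpos (convex_Ioc (-1) 0)
        · intro x hx
          exact (hasDerivAt_g x hx.1).continuousAt.continuousWithinAt
        · intro x hx
          rw [interior_Ioc] at hx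
          exact (hasDerivAt_g x hx.1).differentiableAt.differentiableWithinAt
        · intro x hx
          rw [interior_Ioc] at hx
          rw [(hasDerivAt_g x hx.1).deriv]
          have h1 : 0 < 1 + x := by linarith [hx.1]
          apply div_nonpos_of_nonpos_of_nonneg _ h1.le
          exact (Odd.pow_neg (by decide) hx.2).le
      have := hanti (Set.mem_Ioc.2 ⟨hu, h⟩) (Set.mem_Ioc.2 ⟨by norm_num, le_rfl⟩) h
      rw [hg0] at this
      exact this
  have : g u = u - u ^ 2 / 2 + u ^ 3 / 3 - Real.log (1 + u) := rfl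
  linarith

theorem ent_bound (u : ℝ) (h1 : -(1 / 2) ≤ u) (h2 : u ≤ 1 / 2) :
    (1 + u) * Real.log (1 + u) ≤ u + 2 / 3 * u ^ 2 := by
  have hpos : 0 < 1 + u := by linarith
  have h := mul_le_mul_of_nonneg_left (log_cubic u (by linarith)) hpos.le
  refine h.trans ?_
  have h3 : 0 ≤ (2 * u + 1) * (1 - u) := mul_nonneg (by linarith) (by linarith)
  have h4 : 0 ≤ u ^ 2 * ((2 * u + 1) * (1 - u)) := mul_nonneg (sq_nonneg u) h3
  nlinarith [h4]

/-- PIECE TAN. -/
theorem p_tan : Pool.Agent.W2helper31.GP.P_TAN := by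
  intro p f x hp hp1 hf hx
  obtain ⟨hf1, hf2⟩ := abs_le.1 hf
  set L := Real.log x with hL
  have hu1 : -(1 / 2) ≤ p * f := by nlinarith
  have hu2 : p * f ≤ 1 / 2 := by nlinarith
  have hpos : 0 < 1 + p * f := by linarith
  have hent := ent_bound (p * f) hu1 hu2
  have hx' : x ^ p = Real.exp (p * L) := by
    rw [Real.rpow_def_of_pos hx, mul_comm]
  have hexp : Real.exp (p * L) = (1 + p * f) * Real.exp (p * L - Real.log (1 + p * f)) := by
    rw [Real.exp_sub, Real.exp_log hpos]
    field_simp
  have hle := Real.add_one_le_exp (p * L - Real.log (1 + p * f))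
  have hle2 := mul_le_mul_of_nonneg_left hle hpos.le
  rw [hx', hexp]
  refine le_trans ?_ hle2
  have : (1 + p * f) * (p * L - Real.log (1 + p * f) + 1)
      = (1 + p * f) * (1 + p * L) - (1 + p * f) * Real.log (1 + p * f) := by ring
  rw [this]
  nlinarith [hent]

end Pool.Agent.W2helper2.GP5
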